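import Pool.Agent.H586.AF.E

/-!
# Project AF (helper586), task AH-IN (helper87): near region, magnetic part

`theorem tin (hH : S_H) : S_IN`.  The lemmas `rp32`, `hb_of`, `alg`, `sqrt_b` are copied from the file of
helper245 for the task AF-I.
-/

set_option autoImplicit false
set_option linter.unusedVariables false

open MeasureTheory Set Filter Topology
open Pool.Agent.H586.AF Pool.Agent.H586.AF.EE

namespace Pool.Agent.H87.AH

noncomputable section

lemma rp32 {x : ℝ} (hx : 0 ≤ x) : x ^ (3 / 2 : ℝ) = Real.sqrt x ^ 3 := by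
  rw [Real.sqrt_eq_rpow, ← Real.rpow_natCast, ← Real.rpow_mul hx]
  norm_num

/-- the bounds of `S_H` which are used -/
structure HB (D : ℝ) : Prop where
  one : 1 ≤ D
  ha : ∀ t : ℝ, 1 ≤ t → |hh t - 1 / Real.sqrt (4 * Real.pi * t)| ≤ D / t ^ (3 / 2 : ℝ)
  wa : ∀ t : ℝ, 1 ≤ t → |ww t - 1 / (Real.sqrt Real.pi * t ^ (3 / 2 : ℝ))| ≤ D / t ^ (5 / 2 : ℝ)
  h0 : ∀ t : ℝ, 0 ≤ t → 0 ≤ hh t
  hb : ∀ t : ℝ, 0 ≤ t → hh t ≤ D / Real.sqrt (1 + t)
  w0 : ∀ t : ℝ, 0 ≤ t → 0 ≤ ww t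
  wb : ∀ t : ℝ, 0 ≤ t → ww t ≤ D / Real.sqrt (1 + t) ^ 3

lemma hb_of (h : S_H) : ∃ D, HB D := by
  obtain ⟨C, hC, h1, h2, -⟩ := h
  refine ⟨C, hC, fun t ht => (h1 t ht).1, fun t ht => (h1 t ht).2.1, fun t ht => (h2 t ht).1,
    fun t ht => (h2 t ht).2.1, fun t ht => (h2 t ht).2.2.1, fun t ht => ?_⟩
  rw [← rp32 (by linarith)]
  exact (h2 t ht).2.2.2.1

/-- the algebra of the first region -/
lemma alg {a b c d m n g B X2 z C0 D E : ℝ} (hC0 : 0 ≤ C0) (hD : 0 ≤ D) (hE : E = D + 2 * C0)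
    (hz : 1 ≤ 2 * z) (hg : 0 ≤ g) (hgX : g ≤ X2) (hm : 0 ≤ m) (hmX : m * X2 ≤ D * z) (hn : 0 ≤ n)
    (hnz : n ≤ D * z) (hB : 0 ≤ B) (hgB : g * B ≤ 4) (ha : |a - m * g ^ 2| ≤ C0 * g)
    (hb : |b - m| ≤ C0 * B) (hc : |c - n| ≤ C0) (hd : |d - n| ≤ C0) :
    |a * b * c * d - m ^ 2 * g ^ 2 * n ^ 2| ≤
      (4 * C0 * E ^ 3 + C0 * D * E ^ 2 + 2 * C0 * E * D ^ 2) * z ^ 3 := by
  have hz0 : 0 < z := by linarith
  have hE0 : 0 ≤ E := by rw [hE]; positivity
  have hX2 : 0 ≤ X2 := hg.trans hgX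
  have hCz : C0 ≤ 2 * C0 * z := by nlinarith
  have hc' : |c| ≤ E * z := by
    have : c = (c - n) + n := by ring
    rw [this]
    refine (abs_add_le _ _).trans ?_
    rw [abs_of_nonneg hn, hE]
    nlinarith
  have hd' : |d| ≤ E * z := by
    have : d = (d - n) + n := by ring
    rw [this]
    refine (abs_add_le _ _).trans ?_
    rw [abs_of_nonneg hn, hE]
    nlinarith
  have hmg : m * g ≤ D * z := (mul_le_mul_of_nonneg_left hgX hm).trans hmX
  have ha' : |a| ≤ E * z * g := by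
    have : a = (a - m * g ^ 2) + m * g ^ 2 := by ring
    rw [this]
    refine (abs_add_le _ _).trans ?_
    rw [abs_of_nonneg (by positivity : 0 ≤ m * g ^ 2), hE]
    have h1 : m * g ^ 2 ≤ D * z * g := by
      have := mul_le_mul_of_nonneg_right hmg hg
      nlinarith
    have h2 : C0 * g ≤ 2 * C0 * z * g := mul_le_mul_of_nonneg_right hCz hg
    nlinarith
  have e1 : a * b * c * d - m ^ 2 * g ^ 2 * n ^ 2 = a * (b - m) * c * d +
      (a - m * g ^ 2) * m * c * d + (m * g) ^ 2 * ((c - n) * d + n * (d - n)) := by ring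
  have t1 : |a * (b - m) * c * d| ≤ 4 * C0 * E ^ 3 * z ^ 3 := by
    rw [abs_mul, abs_mul, abs_mul]
    calc |a| * |b - m| * |c| * |d| ≤ (E * z * g) * (C0 * B) * (E * z) * (E * z) := by gcongr
      _ = (g * B) * (C0 * E ^ 3 * z ^ 3) := by ring
      _ ≤ 4 * (C0 * E ^ 3 * z ^ 3) := mul_le_mul_of_nonneg_right hgB (by positivity)
      _ = _ := by ring
  have t2 : |(a - m * g ^ 2) * m * c * d| ≤ C0 * D * E ^ 2 * z ^ 3 := by
    rw [abs_mul, abs_mul, abs_mul, abs_of_nonneg hm]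
    calc |a - m * g ^ 2| * m * |c| * |d| ≤ (C0 * g) * m * (E * z) * (E * z) := by gcongr
      _ = (m * g) * (C0 * E ^ 2 * z ^ 2) := by ring
      _ ≤ (D * z) * (C0 * E ^ 2 * z ^ 2) := mul_le_mul_of_nonneg_right hmg (by positivity)
      _ = _ := by ring
  have t3 : |(m * g) ^ 2 * ((c - n) * d + n * (d - n))| ≤ 2 * C0 * E * D ^ 2 * z ^ 3 := by
    rw [abs_mul, abs_of_nonneg (by positivity : 0 ≤ (m * g) ^ 2)]
    have h1 : |(c - n) * d + n * (d - n)| ≤ 2 * C0 * E * z := by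
      refine (abs_add_le _ _).trans ?_
      rw [abs_mul, abs_mul, abs_of_nonneg hn]
      have h2 : |c - n| * |d| ≤ C0 * (E * z) := by gcongr
      have h3 : n * |d - n| ≤ (D * z) * C0 := by gcongr
      have h4 : D * z * C0 ≤ E * z * C0 := by
        have : D ≤ E := by rw [hE]; linarith
        gcongr
      nlinarith
    have h5 : (m * g) ^ 2 ≤ (D * z) ^ 2 := pow_le_pow_left₀ (by positivity) hmg 2
    calc (m * g) ^ 2 * |(c - n) * d + n * (d - n)| ≤ (D * z) ^ 2 * (2 * C0 * E * z) := by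
          gcongr
      _ = _ := by ring
  rw [e1]
  refine (abs_add_le _ _).trans ((add_le_add (abs_add_le _ _) le_rfl).trans ?_)
  nlinarith

/-- `√x (1 / √(1 + x) + 1 / L) ≤ 2` for `x ≤ L²` -/
lemma sqrt_b {L t : ℝ} (hL : 0 < L) (ht : 0 < t) (ht' : t ≤ L ^ 2) :
    Real.sqrt t * (1 / Real.sqrt (1 + t) + 1 / L) ≤ 2 := by
  have h1 : Real.sqrt t ≤ Real.sqrt (1 + t) := Real.sqrt_le_sqrt (by linarith)
  have h2 : 0 < Real.sqrt (1 + t) := Real.sqrt_pos.mpr (by linarith)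
  have h3 : Real.sqrt t ≤ L := by
    rw [show L = Real.sqrt (L ^ 2) from (Real.sqrt_sq hL.le).symm]
    exact Real.sqrt_le_sqrt ht'
  have h4 : Real.sqrt t / Real.sqrt (1 + t) ≤ 1 := (div_le_one h2).mpr h1
  have h5 : Real.sqrt t / L ≤ 1 := (div_le_one hL).mpr h3
  have h6 : Real.sqrt t * (1 / Real.sqrt (1 + t) + 1 / L) =
      Real.sqrt t / Real.sqrt (1 + t) + Real.sqrt t / L := by ring
  rw [h6]
  linarith

/-- the comparison function -/
def mf (L : ℝ) (t s : ℝ) : ℝ := L ^ 4 * (t * s * (ww (t + s) ^ 2 * hh (t + s) ^ 2))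

/-- region `t + s ≤ L²` -/
lemma reg1 {D C0 L : ℝ} (H : HB D) (hC0 : 0 ≤ C0) (hL : 1 ≤ L) {a b c d t s : ℝ} (ht : 0 < t)
    (hs : 0 < s) (hts : t + s ≤ L ^ 2)
    (ha : |a - L * (t * s * ww (t + s))| ≤ C0 * Real.sqrt (t * s))
    (hb : |b - L * ww (t + s)| ≤
      C0 * (1 / Real.sqrt (1 + t) + 1 / L) * (1 / Real.sqrt (1 + s) + 1 / L))
    (hc : |c - L * hh (t + s)| ≤ C0) (hd : |d - L * hh (t + s)| ≤ C0) :
    |a * b * c * d - mf L t s| ≤
      (4 * C0 * (D + 2 * C0) ^ 3 + C0 * D * (D + 2 * C0) ^ 2 +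
        2 * C0 * (D + 2 * C0) * D ^ 2) * (L / Real.sqrt (1 + (t + s))) ^ 3 := by
  have hL0 : 0 < L := by linarith
  have hD := H.one
  have hτ : 0 ≤ t + s := by positivity
  obtain ⟨X, hX⟩ : ∃ X, X = Real.sqrt (1 + (t + s)) := ⟨_, rfl⟩
  have hX0 : 0 < X := by rw [hX]; exact Real.sqrt_pos.mpr (by positivity)
  have hX2 : X ^ 2 = 1 + (t + s) := by rw [hX]; exact Real.sq_sqrt (by positivity)
  have hXL : X ≤ 2 * L := by
    apply (pow_le_pow_iff_left₀ hX0.le (by positivity) two_ne_zero).mp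
    rw [hX2]
    nlinarith
  obtain ⟨g, hg⟩ : ∃ g, g = Real.sqrt (t * s) := ⟨_, rfl⟩
  have hg0 : 0 ≤ g := by rw [hg]; exact Real.sqrt_nonneg _
  have hg2 : g ^ 2 = t * s := by rw [hg]; exact Real.sq_sqrt (by positivity)
  have hgX : g ≤ X ^ 2 := by
    rw [hX2, hg]
    apply Real.sqrt_le_iff.mpr
    constructor
    · positivity
    · nlinarith
  have hw0 := H.w0 _ hτ
  have hh0 := H.h0 _ hτ
  have hwb := H.wb _ hτ
  have hhb := H.hb _ hτ
  rw [← hX] at hwb hhb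
  have hgB : g * ((1 / Real.sqrt (1 + t) + 1 / L) * (1 / Real.sqrt (1 + s) + 1 / L)) ≤ 4 := by
    have e1 := sqrt_b hL0 ht (by linarith : t ≤ L ^ 2)
    have e2 := sqrt_b hL0 hs (by linarith : s ≤ L ^ 2)
    have e3 : g = Real.sqrt t * Real.sqrt s := by rw [hg, Real.sqrt_mul ht.le]
    rw [e3]
    calc Real.sqrt t * Real.sqrt s *
          ((1 / Real.sqrt (1 + t) + 1 / L) * (1 / Real.sqrt (1 + s) + 1 / L)) =
          (Real.sqrt t * (1 / Real.sqrt (1 + t) + 1 / L)) *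
            (Real.sqrt s * (1 / Real.sqrt (1 + s) + 1 / L)) := by ring
      _ ≤ 2 * 2 := mul_le_mul e1 e2 (by positivity) (by norm_num)
      _ = 4 := by norm_num
  have hmain := alg (a := a) (b := b) (c := c) (d := d) (m := L * ww (t + s)) (n := L * hh (t + s))
    (g := g) (B := (1 / Real.sqrt (1 + t) + 1 / L) * (1 / Real.sqrt (1 + s) + 1 / L))
    (X2 := X ^ 2) (z := L / X) (C0 := C0) (D := D) (E := D + 2 * C0) hC0 (by linarith) rfl
    (by rw [← mul_div_assoc, le_div_iff₀ hX0]; linarith) hg0 hgX (by positivity)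
    (by
      calc L * ww (t + s) * X ^ 2 ≤ L * (D / X ^ 3) * X ^ 2 := by gcongr
        _ = D * (L / X) := by field_simp)
    (by positivity)
    (by
      calc L * hh (t + s) ≤ L * (D / X) := by gcongr
        _ = D * (L / X) := by field_simp)
    (by positivity) hgB
    (by
      have : L * ww (t + s) * (t * s) = L * (t * s * ww (t + s)) := by ring
      rw [hg2, this, hg]; exact ha)
    (by rw [← mul_assoc]; exact hb) hc hd
  have e1 : (L * ww (t + s)) ^ 2 * g ^ 2 * (L * hh (t + s)) ^ 2 = mf L t s := by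
    rw [hg2, mf]
    ring
  rw [e1] at hmain
  rw [← hX]
  exact hmain

/-- the weight -/
def vf (t : ℝ) : ℝ := t ^ (-(3 / 4) : ℝ)

lemma vf_nonneg {t : ℝ} (ht : 0 ≤ t) : 0 ≤ vf t := Real.rpow_nonneg ht _

lemma vf_prod {L t s : ℝ} (hL : 0 ≤ L) (ht : 0 < t) (hs : 0 < s) :
    (L / Real.sqrt (1 + (t + s))) ^ 3 ≤ L ^ 3 * (vf t * vf s) := by
  have hT : 0 < 1 + (t + s) := by positivity
  rw [div_pow, div_eq_mul_inv]
  refine mul_le_mul_of_nonneg_left ?_ (by positivity)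
  have h1 : (Real.sqrt (1 + (t + s)) ^ 3)⁻¹ = ((1 + (t + s)) ^ 2) ^ (-(3 / 4) : ℝ) := by
    rw [← rp32 hT.le, ← Real.rpow_natCast (1 + (t + s)) 2, ← Real.rpow_mul hT.le,
      ← Real.rpow_neg hT.le]
    norm_num
  rw [h1, vf, vf, ← Real.mul_rpow ht.le hs.le]
  apply Real.rpow_le_rpow_of_nonpos (by positivity) _ (by norm_num)
  nlinarith

lemma vf_integral {R : ℝ} (hR : 0 ≤ R) :
    IntegrableOn vf (Ioc 0 R) ∧ ∫ t in Ioc (0 : ℝ) R, vf t = 4 * R ^ (1 / 4 : ℝ) := by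
  have h1 : IntervalIntegrable vf volume 0 R :=
    intervalIntegral.intervalIntegrable_rpow' (by norm_num)
  refine ⟨(intervalIntegrable_iff_integrableOn_Ioc_of_le hR).1 h1, ?_⟩
  rw [← intervalIntegral.integral_of_le hR]
  have h2 : ∫ t in (0 : ℝ)..R, t ^ (-(3 / 4) : ℝ) = (R ^ (-(3 / 4) + 1 : ℝ) -
      0 ^ (-(3 / 4) + 1 : ℝ)) / (-(3 / 4) + 1 : ℝ) := integral_rpow (Or.inl (by norm_num))
  have h3 : (∫ t in (0 : ℝ)..R, vf t) = ∫ t in (0 : ℝ)..R, t ^ (-(3 / 4) : ℝ) := rfl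
  rw [h3, h2, show (-(3 / 4) + 1 : ℝ) = 1 / 4 by norm_num, Real.zero_rpow (by norm_num)]
  ring

/-- the integral over a triangle, the last step -/
lemma tri_last {φ : ℝ → ℝ} (hφ : Continuous φ) (R : ℝ) :
    ∫ t in (0 : ℝ)..R, t * ∫ τ in t..R, (τ - t) * φ τ = ∫ τ in (0 : ℝ)..R, τ ^ 3 / 6 * φ τ := by
  obtain ⟨P, hP⟩ : ∃ P : ℝ → ℝ, P = fun t => ∫ τ in (0 : ℝ)..t, τ * φ τ := ⟨_, rfl⟩
  obtain ⟨B, hB⟩ : ∃ B : ℝ → ℝ, B = fun t => ∫ τ in (0 : ℝ)..t, φ τ := ⟨_, rfl⟩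
  have hc1 : Continuous fun τ : ℝ => τ * φ τ := continuous_id.mul hφ
  have dP : ∀ t, HasDerivAt P (t * φ t) t := by
    intro t
    rw [hP]
    exact (hc1.integral_hasStrictDerivAt 0 t).hasDerivAt
  have dB : ∀ t, HasDerivAt B (φ t) t := by
    intro t
    rw [hB]
    exact (hφ.integral_hasStrictDerivAt 0 t).hasDerivAt
  have hin : ∀ t, ∫ τ in t..R, (τ - t) * φ τ = (P R - P t) - t * (B R - B t) := by
    intro t
    have e1 : P R - P t = ∫ τ in t..R, τ * φ τ := by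
      rw [hP]
      exact intervalIntegral.integral_interval_sub_left (hc1.intervalIntegrable 0 R)
        (hc1.intervalIntegrable 0 t)
    have e2 : B R - B t = ∫ τ in t..R, φ τ := by
      rw [hB]
      exact intervalIntegral.integral_interval_sub_left (hφ.intervalIntegrable 0 R)
        (hφ.intervalIntegrable 0 t)
    have hc2 : Continuous fun τ : ℝ => t * φ τ := continuous_const.mul hφ
    rw [e1, e2, ← intervalIntegral.integral_const_mul, ← intervalIntegral.integral_sub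
      (hc1.intervalIntegrable t R) (hc2.intervalIntegrable t R)]
    refine intervalIntegral.integral_congr fun τ _ => ?_
    show (τ - t) * φ τ = τ * φ τ - t * φ τ
    ring
  have cP : Continuous P := continuous_iff_continuousAt.2 fun t => (dP t).continuousAt
  have cB : Continuous B := continuous_iff_continuousAt.2 fun t => (dB t).continuousAt
  have dH : ∀ t ∈ uIcc (0 : ℝ) R, HasDerivAt (fun t : ℝ => t ^ 2 / 2 * ((P R - P t) - t * (B R - B t)) +
      t ^ 3 / 6 * (B R - B t)) (t * ((P R - P t) - t * (B R - B t)) - t ^ 3 / 6 * φ t) t := by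
    intro t _
    have h1 : HasDerivAt (fun t : ℝ => P R - P t) (-(t * φ t)) t := (dP t).const_sub (P R)
    have h2 : HasDerivAt (fun t : ℝ => B R - B t) (-(φ t)) t := (dB t).const_sub (B R)
    have h3 : HasDerivAt (fun t : ℝ => t * (B R - B t)) (1 * (B R - B t) + t * -(φ t)) t :=
      (hasDerivAt_id t).mul h2
    have h4 := h1.sub h3
    have h5 : HasDerivAt (fun t : ℝ => t ^ 2 / 2) (((2 : ℕ) : ℝ) * t ^ (2 - 1) / 2) t :=
      (hasDerivAt_pow 2 t).div_const 2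
    have h6 : HasDerivAt (fun t : ℝ => t ^ 3 / 6) (((3 : ℕ) : ℝ) * t ^ (3 - 1) / 6) t :=
      (hasDerivAt_pow 3 t).div_const 6
    have h7 := (h5.mul h4).add (h6.mul h2)
    refine h7.congr_deriv ?_
    push_cast
    simp only [Pi.sub_apply]
    ring
  have hcont : Continuous fun t : ℝ => t * ((P R - P t) - t * (B R - B t)) := by fun_prop
  have hcont2 : Continuous fun t : ℝ => t ^ 3 / 6 * φ t := by fun_prop
  have h8 := intervalIntegral.integral_eq_sub_of_hasDerivAt dH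
    ((hcont.sub hcont2).intervalIntegrable 0 R)
  rw [intervalIntegral.integral_sub (hcont.intervalIntegrable 0 R)
    (hcont2.intervalIntegrable 0 R)] at h8
  have h9 : ∫ t in (0 : ℝ)..R, t * ∫ τ in t..R, (τ - t) * φ τ =
      ∫ t in (0 : ℝ)..R, t * ((P R - P t) - t * (B R - B t)) :=
    intervalIntegral.integral_congr fun t _ => by
      show t * ∫ τ in t..R, (τ - t) * φ τ = t * ((P R - P t) - t * (B R - B t))
      rw [hin]
  rw [h9]
  have h10 : R ^ 2 / 2 * ((P R - P R) - R * (B R - B R)) + R ^ 3 / 6 * (B R - B R) -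
      ((0 : ℝ) ^ 2 / 2 * ((P R - P 0) - 0 * (B R - B 0)) + (0 : ℝ) ^ 3 / 6 * (B R - B 0)) = 0 := by
    ring
  rw [h10] at h8
  linarith

/-- the integral over a triangle -/
lemma tri_int {φ : ℝ → ℝ} (hφ : Continuous φ) {R : ℝ} (hR : 0 ≤ R) :
    ∫ t in Ioi (0 : ℝ), ∫ s in Ioi (0 : ℝ), (if t + s ≤ R then t * s * φ (t + s) else 0) =
      ∫ τ in (0 : ℝ)..R, τ ^ 3 / 6 * φ τ := by
  have hinner : ∀ t ∈ Ioi (0 : ℝ),
      ∫ s in Ioi (0 : ℝ), (if t + s ≤ R then t * s * φ (t + s) else 0) =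
        (Ioc (0 : ℝ) R).indicator (fun t => t * ∫ τ in t..R, (τ - t) * φ τ) t := by
    intro t ht
    have ht0 : 0 < t := ht
    rcases le_or_gt t R with h | h
    · rw [indicator_of_mem (show t ∈ Ioc (0 : ℝ) R from ⟨ht0, h⟩)]
      have e1 : (fun s : ℝ => if t + s ≤ R then t * s * φ (t + s) else 0) =
          (Iic (R - t)).indicator fun s => t * s * φ (t + s) := by
        funext s
        by_cases hs : t + s ≤ R
        · rw [if_pos hs, indicator_of_mem (show s ∈ Iic (R - t) by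
            rw [mem_Iic]; linarith)]
        · rw [if_neg hs, indicator_of_notMem (show s ∉ Iic (R - t) by
            rw [mem_Iic]; intro h1; exact hs (by linarith))]
      rw [e1, setIntegral_indicator measurableSet_Iic, Ioi_inter_Iic,
        ← intervalIntegral.integral_of_le (by linarith)]
      have e2 : ∫ s in (0 : ℝ)..(R - t), t * s * φ (t + s) =
          ∫ s in (0 : ℝ)..(R - t), (fun τ => t * ((τ - t) * φ τ)) (t + s) :=
        intervalIntegral.integral_congr fun s _ => by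
          show t * s * φ (t + s) = t * ((t + s - t) * φ (t + s))
          ring
      rw [e2, intervalIntegral.integral_comp_add_left (fun τ => t * ((τ - t) * φ τ)) t,
        intervalIntegral.integral_const_mul, add_zero, add_sub_cancel]
    · rw [indicator_of_notMem (show t ∉ Ioc (0 : ℝ) R from fun h1 => absurd h1.2 (not_le.2 h))]
      refine setIntegral_eq_zero_of_forall_eq_zero fun s hs => ?_
      have hs0 : 0 < s := hs
      rw [if_neg (by intro h1; linarith)]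
  rw [setIntegral_congr_fun measurableSet_Ioi hinner, setIntegral_indicator measurableSet_Ioc]
  have e3 : Ioi (0 : ℝ) ∩ Ioc 0 R = Ioc 0 R := inter_eq_right.2 fun x hx => hx.1
  rw [e3, ← intervalIntegral.integral_of_le hR, tri_last hφ]

/-- functions on the triangle are integrable -/
lemma tri_integrable {f : ℝ × ℝ → ℝ} (hf : Continuous f) (R : ℝ) :
    Integrable (fun p : ℝ × ℝ => if p.1 + p.2 ≤ R then f p else 0)
      ((volume.restrict (Ioi (0 : ℝ))).prod (volume.restrict (Ioi (0 : ℝ)))) := by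
  have hms : MeasurableSet {p : ℝ × ℝ | p.1 + p.2 ≤ R} :=
    (isClosed_le (continuous_fst.add continuous_snd) continuous_const).measurableSet
  have e1 : (fun p : ℝ × ℝ => if p.1 + p.2 ≤ R then f p else 0) =
      {p : ℝ × ℝ | p.1 + p.2 ≤ R}.indicator f := by
    funext p
    by_cases hp : p.1 + p.2 ≤ R
    · rw [if_pos hp, indicator_of_mem (show p ∈ {p : ℝ × ℝ | p.1 + p.2 ≤ R} from hp)]
    · rw [if_neg hp, indicator_of_notMem (show p ∉ {p : ℝ × ℝ | p.1 + p.2 ≤ R} from hp)]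
  rw [e1, integrable_indicator_iff hms, Measure.prod_restrict, IntegrableOn,
    Measure.restrict_restrict hms]
  have h1 : IntegrableOn f (Icc (0 : ℝ) R ×ˢ Icc (0 : ℝ) R) (volume.prod volume) :=
    hf.continuousOn.integrableOn_compact (isCompact_Icc.prod isCompact_Icc)
  refine h1.mono_set ?_
  rintro ⟨t, s⟩ ⟨h2, h3, h4⟩
  have h5 : t + s ≤ R := h2
  have h6 : 0 < t := h3
  have h7 : 0 < s := h4
  exact ⟨⟨h6.le, by show t ≤ R; linarith⟩, ⟨h7.le, by show s ≤ R; linarith⟩⟩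

/-- **Task AH-IN** (near region, magnetic part). -/
theorem tin (hH : S_H) : S_IN := by
  obtain ⟨D, H⟩ := hb_of hH
  have hcont : Continuous hh ∧ Continuous ww := by
    obtain ⟨C, -, -, -, h1, h2, -⟩ := hH
    exact ⟨h1, h2⟩
  obtain ⟨chh, cww⟩ := hcont
  intro C0 hC0
  have hC00 : 0 ≤ C0 := by linarith
  have hD := H.one
  obtain ⟨K1, hK1⟩ : ∃ K1, K1 = 4 * C0 * (D + 2 * C0) ^ 3 + C0 * D * (D + 2 * C0) ^ 2 +
        2 * C0 * (D + 2 * C0) * D ^ 2 := ⟨_, rfl⟩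
  have hK10 : 0 ≤ K1 := by rw [hK1]; positivity
  refine ⟨8 * K1, ?_⟩
  intro n hn a b c d hI ε hε hε1
  obtain ⟨L, hL⟩ : ∃ L : ℝ, L = (n : ℝ) := ⟨_, rfl⟩
  have hL1 : 1 ≤ L := by
    rw [hL]
    have : (2 : ℝ) ≤ n := by exact_mod_cast hn
    linarith
  obtain ⟨hac, hbc, htr, ha, -, hb⟩ := hI
  rw [← hL] at ha hb ⊢
  obtain ⟨hcc, hcd, hc, hd, -, -⟩ := htr
  rw [← hL] at hc hd
  have hL0 : 0 < L := by linarith
  obtain ⟨R, hR⟩ : ∃ R : ℝ, R = ε * L ^ 2 := ⟨_, rfl⟩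
  have hR0 : 0 ≤ R := by rw [hR]; positivity
  have hRL : R ≤ L ^ 2 := by
    rw [hR]
    have h1 : 0 ≤ L ^ 2 := by positivity
    nlinarith
  rw [← hR]
  obtain ⟨f, hf⟩ : ∃ f : ℝ × ℝ → ℝ, f = fun p => a p.1 p.2 * b p.1 p.2 * c (p.1 + p.2) *
      d (p.1 + p.2) := ⟨_, rfl⟩
  obtain ⟨m, hm⟩ : ∃ m : ℝ × ℝ → ℝ, m = fun p => mf L p.1 p.2 := ⟨_, rfl⟩
  have hfc : Continuous f := by
    rw [hf]
    have h1 : Continuous fun p : ℝ × ℝ => a p.1 p.2 := hac
    have h2 : Continuous fun p : ℝ × ℝ => b p.1 p.2 := hbc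
    exact ((h1.mul h2).mul (hcc.comp (continuous_fst.add continuous_snd))).mul
      (hcd.comp (continuous_fst.add continuous_snd))
  have hmc : Continuous m := by
    rw [hm]
    unfold mf
    have h1 : Continuous fun p : ℝ × ℝ => ww (p.1 + p.2) :=
      cww.comp (continuous_fst.add continuous_snd)
    have h2 : Continuous fun p : ℝ × ℝ => hh (p.1 + p.2) :=
      chh.comp (continuous_fst.add continuous_snd)
    exact continuous_const.mul ((continuous_fst.mul continuous_snd).mul ((h1.pow 2).mul (h2.pow 2)))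
  obtain ⟨F, hF⟩ : ∃ F : ℝ × ℝ → ℝ, F = fun p => if p.1 + p.2 ≤ R then f p else 0 := ⟨_, rfl⟩
  obtain ⟨M, hM⟩ : ∃ M : ℝ × ℝ → ℝ, M = fun p => if p.1 + p.2 ≤ R then m p else 0 := ⟨_, rfl⟩
  have hFi : Integrable F ((volume.restrict (Ioi (0 : ℝ))).prod (volume.restrict (Ioi (0 : ℝ)))) := by
    rw [hF]
    exact tri_integrable hfc R
  have hMi : Integrable M ((volume.restrict (Ioi (0 : ℝ))).prod (volume.restrict (Ioi (0 : ℝ)))) := by
    rw [hM]
    exact tri_integrable hmc R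
  obtain ⟨w, hw⟩ : ∃ w : ℝ → ℝ, w = (Ioc (0 : ℝ) R).indicator vf := ⟨_, rfl⟩
  obtain ⟨hvi, hvv⟩ := vf_integral hR0
  have hres : Ioi (0 : ℝ) ∩ Ioc 0 R = Ioc 0 R := inter_eq_right.2 fun x hx => hx.1
  have hwi : Integrable w (volume.restrict (Ioi (0 : ℝ))) := by
    rw [hw, integrable_indicator_iff measurableSet_Ioc, IntegrableOn,
      Measure.restrict_restrict measurableSet_Ioc, inter_comm, hres]
    exact hvi
  have hwv : ∫ t in Ioi (0 : ℝ), w t = 4 * R ^ (1 / 4 : ℝ) := by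
    rw [hw, setIntegral_indicator measurableSet_Ioc, hres]
    exact hvv
  have hw0 : ∀ t, 0 ≤ w t := by
    intro t
    rw [hw]
    exact indicator_nonneg (fun x hx => vf_nonneg hx.1.le) t
  obtain ⟨G, hG⟩ : ∃ G : ℝ × ℝ → ℝ, G = fun p => K1 * L ^ 3 * (w p.1 * w p.2) := ⟨_, rfl⟩
  have pw : ∀ p : ℝ × ℝ, 0 < p.1 → 0 < p.2 → ‖F p - M p‖ ≤ G p := by
    rintro ⟨t, s⟩ ht hs
    simp only at ht hs
    rw [Real.norm_eq_abs, hF, hM, hG]
    simp only
    by_cases h : t + s ≤ R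
    · rw [if_pos h, if_pos h, hf, hm]
      simp only
      have h1 := reg1 H hC00 hL1 ht hs (h.trans hRL) (ha t s ht.le hs.le) (hb t s ht.le hs.le)
        (hc (t + s) (by positivity)) (hd (t + s) (by positivity))
      rw [← hK1] at h1
      refine h1.trans ?_
      have h2 := vf_prod hL0.le ht hs
      have h3 : w t = vf t := by
        rw [hw]
        exact indicator_of_mem (show t ∈ Ioc (0 : ℝ) R from ⟨ht, by linarith⟩) _
      have h4 : w s = vf s := by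
        rw [hw]
        exact indicator_of_mem (show s ∈ Ioc (0 : ℝ) R from ⟨hs, by linarith⟩) _
      rw [h3, h4, mul_assoc]
      exact mul_le_mul_of_nonneg_left h2 hK10
    · rw [if_neg h, if_neg h, sub_self, abs_zero]
      have h1 := hw0 t
      have h2 := hw0 s
      positivity
  have hae : ∀ᵐ p ∂((volume.restrict (Ioi (0 : ℝ))).prod (volume.restrict (Ioi (0 : ℝ)))),
      ‖F p - M p‖ ≤ G p := by
    rw [Measure.prod_restrict]
    filter_upwards [ae_restrict_mem (measurableSet_Ioi.prod measurableSet_Ioi)] with p hp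
    exact pw p hp.1 hp.2
  have hGi : Integrable G ((volume.restrict (Ioi (0 : ℝ))).prod (volume.restrict (Ioi (0 : ℝ)))) := by
    rw [hG]
    exact (hwi.mul_prod hwi).const_mul (K1 * L ^ 3)
  have hGv : ∫ p, G p ∂((volume.restrict (Ioi (0 : ℝ))).prod (volume.restrict (Ioi (0 : ℝ)))) =
      K1 * L ^ 3 * (16 * Real.sqrt R) := by
    rw [hG]
    simp only
    rw [integral_const_mul, integral_prod_mul, hwv]
    have h1 : R ^ (1 / 4 : ℝ) * R ^ (1 / 4 : ℝ) = Real.sqrt R := by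
      rw [← Real.rpow_add_of_nonneg hR0 (by norm_num) (by norm_num), Real.sqrt_eq_rpow]
      norm_num
    have h2 : 4 * R ^ (1 / 4 : ℝ) * (4 * R ^ (1 / 4 : ℝ)) =
        16 * (R ^ (1 / 4 : ℝ) * R ^ (1 / 4 : ℝ)) := by ring
    rw [h2, h1]
  have h1 := norm_integral_le_of_norm_le hGi hae
  rw [integral_sub hFi hMi, hGv, Real.norm_eq_abs] at h1
  have hFv : (∫ t in Ioi (0 : ℝ), ∫ s in Ioi (0 : ℝ),
      if t + s ≤ R then a t s * b t s * c (t + s) * d (t + s) else 0) =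
      ∫ p, F p ∂((volume.restrict (Ioi (0 : ℝ))).prod (volume.restrict (Ioi (0 : ℝ)))) := by
    rw [integral_prod _ hFi, hF, hf]
  have hφ : Continuous fun τ : ℝ => ww τ ^ 2 * hh τ ^ 2 := (cww.pow 2).mul (chh.pow 2)
  have hMv : ∫ p, M p ∂((volume.restrict (Ioi (0 : ℝ))).prod (volume.restrict (Ioi (0 : ℝ)))) =
      L ^ 4 * ∫ τ in (0 : ℝ)..R, τ ^ 3 / 6 * ww τ ^ 2 * hh τ ^ 2 := by
    rw [integral_prod _ hMi, hM, hm]
    have e1 : (∫ τ in (0 : ℝ)..R, τ ^ 3 / 6 * ww τ ^ 2 * hh τ ^ 2) =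
        ∫ τ in (0 : ℝ)..R, τ ^ 3 / 6 * (ww τ ^ 2 * hh τ ^ 2) :=
      intervalIntegral.integral_congr fun τ _ => by
        show τ ^ 3 / 6 * ww τ ^ 2 * hh τ ^ 2 = τ ^ 3 / 6 * (ww τ ^ 2 * hh τ ^ 2)
        ring
    rw [e1, ← tri_int hφ hR0, ← integral_const_mul]
    refine integral_congr_ae (Eventually.of_forall fun t => ?_)
    show (∫ s in Ioi (0 : ℝ), if t + s ≤ R then mf L t s else 0) =
      L ^ 4 * ∫ s in Ioi (0 : ℝ), if t + s ≤ R then t * s * (ww (t + s) ^ 2 * hh (t + s) ^ 2) else 0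
    rw [← integral_const_mul]
    refine integral_congr_ae (Eventually.of_forall fun s => ?_)
    show (if t + s ≤ R then mf L t s else 0) =
      L ^ 4 * if t + s ≤ R then t * s * (ww (t + s) ^ 2 * hh (t + s) ^ 2) else 0
    by_cases h : t + s ≤ R
    · rw [if_pos h, if_pos h, mf]
    · rw [if_neg h, if_neg h, mul_zero]
  rw [hFv]
  rw [hMv] at h1
  have hsq : Real.sqrt R = Real.sqrt ε * L := by
    rw [hR, Real.sqrt_mul hε.le, Real.sqrt_sq hL0.le]
  rw [hsq] at h1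
  have e4 : 1 / 2 * (∫ p, F p ∂((volume.restrict (Ioi (0 : ℝ))).prod (volume.restrict (Ioi (0 : ℝ))))) -
      L ^ 4 * (1 / 2 * ∫ τ in (0 : ℝ)..R, τ ^ 3 / 6 * ww τ ^ 2 * hh τ ^ 2) =
      1 / 2 * ((∫ p, F p ∂((volume.restrict (Ioi (0 : ℝ))).prod (volume.restrict (Ioi (0 : ℝ))))) -
        L ^ 4 * ∫ τ in (0 : ℝ)..R, τ ^ 3 / 6 * ww τ ^ 2 * hh τ ^ 2) := by ring
  rw [e4, abs_mul, abs_of_pos (by norm_num : (0 : ℝ) < 1 / 2)]
  have e5 : 8 * K1 * Real.sqrt ε * L ^ 4 = 1 / 2 * (K1 * L ^ 3 * (16 * (Real.sqrt ε * L))) := by ring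
  rw [e5]
  exact mul_le_mul_of_nonneg_left h1 (by norm_num)

end

end Pool.Agent.H87.AH
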